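import Mathlib
import Pool.Agent.Helper116_MU.ZetaPi

set_option autoImplicit false

/-!
# `e, π, ζ(3), …, ζ(2c+1)` and the tails of their integrals: measures of algebraic independence with anchors

Let `N_0(x)` be the integral of `exp (-s² - t²)` over the points `(s, t)` of the plane with `s² ≥ x` or `t² ≥ x`.
For `i ≥ 1`, `k = 2i + 1` and `ω = exp (2 π i / k)` let `N_i(x)` be the number
`(-1)^k / k! * ∫ (∑_j ω^j log t_j)^k exp (-∑_j t_j) dt`, the integral being over the points of the octant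
`(0, ∞)^k` with `max t_j ≥ x`. Here `x ≥ 0` is a rational number.

(1) The numbers `N_i(x)` are real, `N_0(0) = π` and `N_i(0) = ζ(2i+1)` for `i ≥ 1`.

(2) Choose anchors `x_0, …, x_c ≥ 0`, and let `N_{g(j)}(z_j)`, `1 ≤ j ≤ m`, be numbers with different names
`(g(j), z_j)`, `0 ≤ g(j) ≤ c`, `z_j ≥ 0`, which are not anchors: `z_j ≠ x_{g(j)}`. For every `D` there are `κ` and
`C > 0` such that for all nonzero polynomials `P_0, …, P_c` (in two variables) and `Q` (in `m + 1` variables) with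
integer coefficients, of total degree at most `D` and with coefficients of absolute value at most `H` at least one of
the numbers `|P_i(e, N_i(x_i))|`, `|Q(e, N_{g(1)}(z_1), …, N_{g(m)}(z_m))|` is at least `C H^(-κ)`.

(3) If all the anchors `N_i(x_i)`, `0 ≤ i ≤ c`, are algebraic over `ℚ(e)`, then `e` and the numbers `N_{g(j)}(z_j)` are
algebraically independent, with a measure which is polynomial in the height.

(4) So if for every `i ≤ c` some tail `N_i(x)`, `x > 0`, is algebraic over `ℚ(e)`, then the numbers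
`e, π, ζ(3), ζ(5), …, ζ(2c+1)` are algebraically independent, with such a measure. In other words, if they are
algebraically dependent, then there is an `i ≤ c` such that no tail `N_i(x)`, `x > 0`, is algebraic over `ℚ(e)`.

Proof.  The numbers `N_i(0) - N_i(x)` are polynomials in values of E-functions at rational points; a measure in the
theorem of Siegel and Shidlovskii gives a measure for `e` and the numbers `N_{g(j)}(z_j) - N_{g(j)}(x_{g(j)})`.
The `c + 1` unknown anchors are eliminated one after the other by resultants, along a sequence of scales `H`.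
-/

namespace Pool.Agent.Results.MP_a89d6d_nt.AnchoredMeasures

open Set MeasureTheory

/-- the plane integral, for `π` -/
noncomputable def T (x : ℚ) : ℝ :=
  ∫ p in {p : ℝ × ℝ | (x : ℝ) ≤ p.1 ^ 2 ∨ (x : ℝ) ≤ p.2 ^ 2}, Real.exp (-(p.1 ^ 2 + p.2 ^ 2))

/-- `ω = exp (2 π i / k)` -/
noncomputable def root (k : ℕ) : ℂ := Complex.exp (2 * Real.pi * Complex.I / k)

/-- `(∑_j ω^j log t_j)^k exp (-∑_j t_j)` -/
noncomputable def integrand (k : ℕ) (t : Fin k → ℝ) : ℂ :=
  (∑ j : Fin k, root k ^ (j : ℕ) * (Real.log (t j) : ℂ)) ^ k * ((Real.exp (-∑ j, t j) : ℝ) : ℂ)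

/-- the points of `(0, ∞)^k` with `max t_j ≥ x` -/
def rest (k : ℕ) (x : ℝ) : Set (Fin k → ℝ) := {t | (∀ j, 0 < t j) ∧ ∃ j, x ≤ t j}

/-- the tail of the integral for `ζ(k)`, as a complex number -/
noncomputable def tailIntegral (k : ℕ) (x : ℚ) : ℂ :=
  (-1) ^ k / k.factorial * ∫ t in rest k x, integrand k t

/-- `N_i(x)` -/
noncomputable def N (i : ℕ) (x : ℚ) : ℝ := if i = 0 then T x else (tailIntegral (2 * i + 1) x).re

/-- `P` is not zero, its total degree is at most `D` and its coefficients are at most `H` in absolute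
value -/
def Bounded {n : ℕ} (D : ℕ) (H : ℝ) (P : MvPolynomial (Fin n) ℤ) : Prop :=
  P ≠ 0 ∧ P.totalDegree ≤ D ∧ ∀ s, |((MvPolynomial.coeff s P : ℤ) : ℝ)| ≤ H

/-- a measure of algebraic independence for `v_1, …, v_n`, polynomial in the height `H` -/
def Bound {n : ℕ} (v : Fin n → ℝ) : Prop :=
  ∀ d : ℕ, 0 < d → ∃ C : ℝ, 0 < C ∧ ∀ H : ℝ, 2 ≤ H → ∀ P : MvPolynomial (Fin n) ℤ, Bounded d H P →
    H ^ (-C) ≤ |MvPolynomial.aeval v P|

/-- `P(e, x) = 0` for some polynomial `P ≠ 0` with integer coefficients -/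
def Related (x : ℝ) : Prop := ∃ P : MvPolynomial (Fin 2) ℤ, P ≠ 0 ∧ MvPolynomial.aeval ![Real.exp 1, x] P = 0

/-- the names `(g(j), z_j)` are different, `z_j ≥ 0`, and they are not names of anchors -/
def Admissible {n m : ℕ} (x : Fin n → ℚ) (g : Fin m → Fin n) (z : Fin m → ℚ) : Prop :=
  Function.Injective (fun j => (g j, z j)) ∧ (∀ j, 0 ≤ z j) ∧ ∀ j, z j ≠ x (g j)

theorem T_zero : T 0 = Real.pi := by
  have hfun : (fun p : ℝ × ℝ => Real.exp (-(p.1 ^ 2 + p.2 ^ 2))) =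
      fun p : ℝ × ℝ => Real.exp (-p.1 ^ 2) * Real.exp (-p.2 ^ 2) := by
    funext p
    rw [← Real.exp_add]; congr 1; ring
  have hset : {p : ℝ × ℝ | ((0 : ℚ) : ℝ) ≤ p.1 ^ 2 ∨ ((0 : ℚ) : ℝ) ≤ p.2 ^ 2} = univ := by
    refine eq_univ_of_forall fun p => Or.inl ?_
    rw [Rat.cast_zero]
    positivity
  rw [T, hset, setIntegral_univ, hfun, Measure.volume_eq_prod,
    integral_prod_mul (fun t : ℝ => Real.exp (-t ^ 2)) (fun t : ℝ => Real.exp (-t ^ 2))]
  have h3 := integral_gaussian 1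
  simp only [neg_mul, one_mul, div_one] at h3
  rw [h3, Real.mul_self_sqrt Real.pi_pos.le]

/-- the constants -/
noncomputable def con (i : ℕ) : ℝ := if i = 0 then Real.pi else Pool.Agent.R352.E.zt (2 * i + 1)

theorem tail_eq {k : ℕ} (hk : 2 ≤ k) {x : ℚ} (hx : 0 ≤ x) :
    tailIntegral k x = ((Pool.Agent.Helper116_EM.num k (Pool.Agent.Helper116_EM.nmZ x) : ℝ) : ℂ) :=
  (Pool.Agent.Helper116_EM.num_nmZ hk hx).symm

theorem N_eq (i : ℕ) {x : ℚ} (hx : 0 ≤ x) : con i - Pool.Agent.Helper116_MU.cZ i x = N i x := by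
  rw [con, Pool.Agent.Helper116_MU.cZ, N]
  by_cases h : x = 0
  · subst h
    by_cases hi : i = 0
    · rw [if_pos hi, if_pos rfl, if_pos hi, T_zero, sub_zero]
    · rw [if_neg hi, if_pos rfl, if_neg hi, sub_zero]
      have h1 : tailIntegral (2 * i + 1) 0 = (Pool.Agent.R352.E.zt (2 * i + 1) : ℂ) :=
        Pool.Agent.Helper116_EM.tailZ_zero (by omega)
      rw [h1, Complex.ofReal_re]
  · have hx' : 0 < x := lt_of_le_of_ne hx (Ne.symm h)
    have hx'' : (0 : ℝ) < x := by exact_mod_cast hx'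
    by_cases hi : i = 0
    · rw [if_pos hi, if_neg h, if_pos hi, if_pos hi]
      exact (Pool.Agent.Helper116_EM.TT_eq hx'').symm
    · rw [if_neg hi, if_neg h, if_neg hi, if_neg hi]
      have h1 : tailIntegral (2 * i + 1) x = (Pool.Agent.R352.Q.Rk (2 * i + 1) x : ℂ) :=
        Pool.Agent.Helper116_EM.tailZ_pos (by omega) hx'
      rw [h1, Complex.ofReal_re, Pool.Agent.R352.Q.Rk]

theorem coeff_rename_bound {ι κ : Type*} (e : ι ≃ κ) (P : MvPolynomial ι ℤ) {H : ℝ} (hH : 0 ≤ H)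
    (h : ∀ s, |((MvPolynomial.coeff s P : ℤ) : ℝ)| ≤ H) (s : κ →₀ ℕ) :
    |((MvPolynomial.coeff s (MvPolynomial.rename e P) : ℤ) : ℝ)| ≤ H := by
  classical
  by_cases hs : MvPolynomial.coeff s (MvPolynomial.rename e P) = 0
  · rw [hs]; simpa using hH
  · obtain ⟨u, hu, _⟩ := MvPolynomial.coeff_rename_ne_zero _ _ _ hs
    rw [← hu, MvPolynomial.coeff_rename_mapDomain e e.injective]
    exact h u

theorem main {c m : ℕ} (x : Fin (c + 1) → ℚ) (hx : ∀ i, 0 ≤ x i) (g : Fin m → Fin (c + 1)) (z : Fin m → ℚ)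
    (hz : Admissible x g z) (D : ℕ) :
    ∃ (κ : ℕ) (C : ℝ), 0 < C ∧ ∀ H : ℝ, 1 ≤ H → ∀ (P : Fin (c + 1) → MvPolynomial (Fin 2) ℤ)
      (Q : MvPolynomial (Fin (m + 1)) ℤ), (∀ i, Bounded D H (P i)) → Bounded D H Q →
      (∃ i : Fin (c + 1), C / H ^ κ ≤ |MvPolynomial.aeval ![Real.exp 1, N i (x i)] (P i)|) ∨
        C / H ^ κ ≤
          |MvPolynomial.aeval (Fin.cons (Real.exp 1) (fun j => N (g j) (z j)) : Fin (m + 1) → ℝ) Q| := by
  obtain ⟨κ, C, hC, h⟩ := Pool.Agent.Helper116_MU.zp_multi (fun i : Fin (c + 1) => con i) x hx g z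
    hz.1 hz.2.1 hz.2.2 D
  refine ⟨κ, C / 2, by positivity, fun H hH P Q hP hQ => ?_⟩
  by_contra hcon
  push Not at hcon
  obtain ⟨h1, h2⟩ := hcon
  have hHκ : 0 < H ^ κ := by positivity
  set Q' : MvPolynomial (Option (Fin m)) ℤ := MvPolynomial.rename (finSuccEquiv m) Q with hQ'
  have hQ'0 : Q' ≠ 0 := by
    intro h0
    apply hQ.1
    apply MvPolynomial.rename_injective _ (finSuccEquiv m).injective
    rw [map_zero]
    exact h0
  have hQ'D : Q'.totalDegree ≤ D := (MvPolynomial.totalDegree_rename_le _ _).trans hQ.2.1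
  have hQ'H := coeff_rename_bound (finSuccEquiv m) Q (by linarith) hQ.2.2
  have hev : MvPolynomial.aeval (fun o : Option (Fin m) => o.elim (Real.exp 1)
      (fun j => con (g j) - Pool.Agent.Helper116_MU.cZ (g j) (z j))) Q' =
      MvPolynomial.aeval (Fin.cons (Real.exp 1) (fun j => N (g j) (z j)) : Fin (m + 1) → ℝ) Q := by
    rw [hQ', MvPolynomial.aeval_rename]
    congr 2
    funext j
    refine Fin.cases ?_ (fun i => ?_) j
    · simp
    · simp [N_eq _ (hz.2.1 i)]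
  have h3 := h P Q' (fun i => (hP i).1) hQ'0 (fun i => (hP i).2.1) hQ'D H hH (fun i => (hP i).2.2) hQ'H
    (C / 2 / H ^ κ) (fun i => by
      rw [N_eq i (hx i)]
      exact (h1 i).le) (by
      rw [hev]
      exact h2.le)
  have h4 : H ^ κ * (C / 2 / H ^ κ) = C / 2 := by field_simp
  rw [h4] at h3
  linarith

theorem bound_of {m : ℕ} (v : Fin m → ℝ) (h : ∀ d : ℕ, ∃ (κ : ℕ) (c : ℝ), 0 < c ∧ ∀ H : ℝ, 2 ≤ H →
    ∀ Q : MvPolynomial (Fin m) ℤ, Bounded d H Q → c / H ^ κ ≤ |MvPolynomial.aeval v Q|) : Bound v := by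
  intro d _
  obtain ⟨κ, c, hc, hm⟩ := h d
  obtain ⟨k, hk⟩ := exists_pow_lt_of_lt_one hc (show (1 / 2 : ℝ) < 1 by norm_num)
  refine ⟨(κ + k + 1 : ℕ), by positivity, fun H hH P hP => le_trans ?_ (hm H hH P hP)⟩
  have hH0 : 0 < H := by linarith
  rw [Real.rpow_neg hH0.le, Real.rpow_natCast, le_div_iff₀ (by positivity), ← div_eq_inv_mul,
    div_le_iff₀ (by positivity)]
  have h1 : (2 : ℝ) ^ k ≤ H ^ (k + 1) := by
    calc (2 : ℝ) ^ k ≤ H ^ k := pow_le_pow_left₀ (by norm_num) hH k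
      _ ≤ H ^ (k + 1) := pow_le_pow_right₀ (by linarith) (by omega)
  have h2 : 1 < c * 2 ^ k := by
    rw [one_div, inv_pow, inv_lt_iff_one_lt_mul₀ (by positivity)] at hk
    linarith
  have h3 : 1 ≤ c * H ^ (k + 1) := by nlinarith
  calc H ^ κ = H ^ κ * 1 := (mul_one _).symm
    _ ≤ H ^ κ * (c * H ^ (k + 1)) := mul_le_mul_of_nonneg_left h3 (by positivity)
    _ = c * H ^ (κ + k + 1) := by ring

theorem of_related {c m : ℕ} (x : Fin (c + 1) → ℚ) (hx : ∀ i, 0 ≤ x i) (g : Fin m → Fin (c + 1)) (z : Fin m → ℚ)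
    (hz : Admissible x g z) (hr : ∀ i : Fin (c + 1), Related (N i (x i))) :
    Bound (Fin.cons (Real.exp 1) (fun j => N (g j) (z j)) : Fin (m + 1) → ℝ) := by
  classical
  choose P hP0 hP using hr
  obtain ⟨H₀, hH₀1, hH₀⟩ : ∃ H₀ : ℝ, 1 ≤ H₀ ∧ ∀ i s, |((MvPolynomial.coeff s (P i) : ℤ) : ℝ)| ≤ H₀ := by
    have h1 : ∀ i, 0 ≤ Pool.Agent.Helper116_EM.ml (P i) := fun i => Pool.Agent.Helper116_EM.ml_nonneg _
    refine ⟨1 + ∑ i, Pool.Agent.Helper116_EM.ml (P i), ?_, fun i s => ?_⟩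
    · linarith [Finset.sum_nonneg fun i (_ : i ∈ Finset.univ) => h1 i]
    · have h2 := Pool.Agent.Helper116_EM.coeff_le_ml (P i) s
      have h3 := Finset.single_le_sum (fun i _ => h1 i) (Finset.mem_univ i)
      linarith
  refine bound_of _ fun d => ?_
  obtain ⟨κ, C, hC, h⟩ := main x hx g z hz (d + ∑ i, (P i).totalDegree)
  refine ⟨κ, C / H₀ ^ κ, by positivity, fun H hH Q hQ => ?_⟩
  have hle : 1 ≤ H₀ * H := one_le_mul_of_one_le_of_one_le hH₀1 (by linarith)
  have h1 := h (H₀ * H) hle P Q (fun i => ⟨hP0 i, ?_, fun s => (hH₀ i s).trans ?_⟩)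
    ⟨hQ.1, hQ.2.1.trans (by omega), fun s => (hQ.2.2 s).trans ?_⟩
  · rcases h1 with ⟨i, h1⟩ | h1
    · exfalso
      rw [hP i, abs_zero] at h1
      have : 0 < C / (H₀ * H) ^ κ := by positivity
      linarith
    · refine le_trans (le_of_eq ?_) h1
      rw [div_div, mul_pow]
  · have h2 := Finset.single_le_sum (f := fun i => (P i).totalDegree) (fun _ _ => Nat.zero_le _) (Finset.mem_univ i)
    have h3 : (P i).totalDegree ≤ ∑ i, (P i).totalDegree := h2
    omega
  · exact le_mul_of_one_le_right (by linarith) (by linarith)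
  · exact le_mul_of_one_le_left (by linarith) hH₀1

theorem Bound.indep {n : ℕ} {v : Fin n → ℝ} (h : Bound v) : AlgebraicIndependent ℚ v := by
  have h2 : AlgebraicIndependent ℤ v := by
    rw [algebraicIndependent_iff]
    intro P hP
    by_contra h0
    obtain ⟨C, hC, hm⟩ := h (P.totalDegree + 1) (Nat.succ_pos _)
    have h1 := hm (2 + Pool.Agent.Helper116_EM.ml P) (by linarith [Pool.Agent.Helper116_EM.ml_nonneg P]) P
      ⟨h0, Nat.le_succ _, fun s => (Pool.Agent.Helper116_EM.coeff_le_ml P s).trans (by linarith)⟩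
    rw [hP, abs_zero] at h1
    have h3 : 0 < (2 + Pool.Agent.Helper116_EM.ml P) ^ (-C) :=
      Real.rpow_pos_of_pos (by linarith [Pool.Agent.Helper116_EM.ml_nonneg P]) _
    linarith
  have : Algebra.IsAlgebraic ℤ ℚ := ⟨fun q => (IsFractionRing.isAlgebraic_iff ℤ ℚ ℚ).2 (isAlgebraic_algebraMap q)⟩
  exact h2.extendScalars ℚ

/-- the numbers `e, π, ζ(3), ζ(5), …, ζ(2c+1)` -/
noncomputable def constants (c : ℕ) : Fin (c + 2) → ℝ :=
  Fin.cons (Real.exp 1) (Fin.cons Real.pi fun i : Fin c => ∑' n : ℕ, 1 / ((n : ℝ) + 1) ^ (2 * (i : ℕ) + 3))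

theorem constants_eq (c : ℕ) :
    constants c = (Fin.cons (Real.exp 1) (fun j : Fin (c + 1) => N j 0) : Fin (c + 2) → ℝ) := by
  rw [constants]
  congr 1
  funext j
  refine Fin.cases ?_ (fun i => ?_) j
  · rw [Fin.cons_zero]
    exact T_zero.symm
  · rw [Fin.cons_succ, ← N_eq _ le_rfl, con, Pool.Agent.Helper116_MU.cZ, if_pos rfl, sub_zero, Fin.val_succ,
      if_neg (Nat.succ_ne_zero _)]
    rfl

theorem result (c : ℕ) :
    -- (1)
    (N 0 0 = Real.pi ∧ ∀ i, 1 ≤ i → N i 0 = ∑' n : ℕ, 1 / ((n : ℝ) + 1) ^ (2 * i + 1) ∧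
      ∀ x : ℚ, 0 ≤ x → tailIntegral (2 * i + 1) x = (N i x : ℂ)) ∧
    -- (2)
    (∀ (x : Fin (c + 1) → ℚ), (∀ i, 0 ≤ x i) → ∀ (m : ℕ) (g : Fin m → Fin (c + 1)) (z : Fin m → ℚ),
      Admissible x g z → ∀ D : ℕ, ∃ (κ : ℕ) (C : ℝ), 0 < C ∧ ∀ H : ℝ, 1 ≤ H →
        ∀ (P : Fin (c + 1) → MvPolynomial (Fin 2) ℤ) (Q : MvPolynomial (Fin (m + 1)) ℤ),
          (∀ i, Bounded D H (P i)) → Bounded D H Q →
          (∃ i : Fin (c + 1), C / H ^ κ ≤ |MvPolynomial.aeval ![Real.exp 1, N i (x i)] (P i)|) ∨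
            C / H ^ κ ≤
              |MvPolynomial.aeval (Fin.cons (Real.exp 1) (fun j => N (g j) (z j)) : Fin (m + 1) → ℝ) Q|) ∧
    -- (3)
    (∀ (x : Fin (c + 1) → ℚ), (∀ i, 0 ≤ x i) → ∀ (m : ℕ) (g : Fin m → Fin (c + 1)) (z : Fin m → ℚ),
      Admissible x g z → (∀ i : Fin (c + 1), Related (N i (x i))) →
        AlgebraicIndependent ℚ (Fin.cons (Real.exp 1) (fun j => N (g j) (z j)) : Fin (m + 1) → ℝ) ∧
        Bound (Fin.cons (Real.exp 1) (fun j => N (g j) (z j)) : Fin (m + 1) → ℝ)) ∧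
    -- (4)
    ((∀ i ≤ c, ∃ x : ℚ, 0 < x ∧ Related (N i x)) →
      AlgebraicIndependent ℚ (constants c) ∧ Bound (constants c)) := by
  refine ⟨⟨T_zero, fun i hi => ⟨?_, fun x hx => ?_⟩⟩, fun x hx m g z hz D => main x hx g z hz D,
    fun x hx m g z hz hr => ?_, fun h => ?_⟩
  · rw [← N_eq i le_rfl, con, Pool.Agent.Helper116_MU.cZ, if_pos rfl, sub_zero, if_neg (by omega)]
    rfl
  · have h1 := tail_eq (k := 2 * i + 1) (by omega) hx
    rw [N, if_neg (by omega), h1, Complex.ofReal_re]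
  · have h1 := of_related x hx g z hz hr
    exact ⟨h1.indep, h1⟩
  · have h' : ∀ i : Fin (c + 1), ∃ x : ℚ, 0 < x ∧ Related (N i x) := fun i => h i (by have := i.2; omega)
    choose x hx hr using h'
    have h1 := of_related x (fun i => (hx i).le) id (fun _ => 0)
      ⟨fun i j hij => (Prod.mk.inj hij).1, fun j => le_rfl, fun j => (hx _).ne⟩ hr
    rw [constants_eq]
    exact ⟨h1.indep, h1⟩

end Pool.Agent.Results.MP_a89d6d_nt.AnchoredMeasures
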