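import Pool.Agent.H298Y.Lac

/-!
# `π`, any two odd zeta values, and a lacunary family of odd zeta values

For all `m` and `D` there is `C > 0` such that for all `k_0 < k_1 < … < k_{m+1}` with
`k_{i+1} ≥ C k_i` for `i ≥ 1` (no condition on `k_1 / k_0`) and all `H ≥ 1` with
`C (1 + log H) ≤ k_0`, every nonzero polynomial `P` in `m + 3` variables with integer coefficients of
absolute value at most `H` and of total degree at most `D` satisfies
`|P(π, ζ(2 k_0 + 1), …, ζ(2 k_{m+1} + 1))| ≥ exp(-C k_{m+1})`.
-/

set_option autoImplicit false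

namespace Pool.Agent.Results.MP_a89d6d_nt.PairAndLacunaryTail

open MvPolynomial Pool.Agent.H298Y

/-- the position of the values in the vector of `Pool.Agent.H298Y.zv` -/
def pos (m : ℕ) : Option (Fin (m + 2)) → Fin (m + 3)
  | none => ⟨m, by omega⟩
  | some i => if h : (i : ℕ) ≤ 1 then ⟨m + 1 + i, by omega⟩ else ⟨m + 1 - i, by omega⟩

lemma pos_injective (m : ℕ) : Function.Injective (pos m) := by
  intro a b h
  rcases a with _ | a
  · rcases b with _ | b
    · rfl
    · exfalso
      have hb := b.2
      have h1 := congrArg Fin.val h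
      simp only [pos] at h1
      split_ifs at h1
      · simp only at h1
        omega
      · simp only at h1
        omega
  · rcases b with _ | b
    · exfalso
      have ha := a.2
      have h1 := congrArg Fin.val h
      simp only [pos] at h1
      split_ifs at h1
      · simp only at h1
        omega
      · simp only at h1
        omega
    · have ha := a.2
      have hb := b.2
      have h1 := congrArg Fin.val h
      congr 1
      ext
      simp only [pos] at h1
      split_ifs at h1 <;> simp only at h1 <;> omega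

lemma lac_of {m : ℕ} (C : ℝ) (b : ℕ) (f : ℕ → ℕ) (hb : b = f 0)
    (h : ∀ i, i < m → C * f i ≤ f (i + 1)) : ∀ t, t ≤ m →
    Lac C b t (fun i : Fin t => f (t - i)) ∧ top b t (fun i : Fin t => f (t - i)) = f t := by
  intro t
  induction t with
  | zero =>
    intro _
    exact ⟨trivial, hb⟩
  | succ t ih =>
    intro ht
    obtain ⟨h1, h2⟩ := ih (by omega)
    have h3 : (fun i : Fin t => f (t + 1 - (i.succ : Fin (t + 1)))) = fun i : Fin t => f (t - i) := by
      funext i
      rw [Fin.val_succ]
      congr 1
      omega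
    refine ⟨⟨?_, ?_⟩, rfl⟩
    · show C * ((top b t (fun i : Fin t => f (t + 1 - (i.succ : Fin (t + 1)))) : ℕ) : ℝ) ≤
        ((f (t + 1 - 0) : ℕ) : ℝ)
      rw [h3, h2]
      exact h t (by omega)
    · show Lac C b t (fun i : Fin t => f (t + 1 - (i.succ : Fin (t + 1))))
      rw [h3]
      exact h1

theorem result (m D : ℕ) : ∃ C : ℝ, 0 < C ∧ ∀ k : Fin (m + 2) → ℕ, StrictMono k →
    (∀ i : Fin m, C * k i.castSucc.succ ≤ k i.succ.succ) →
    ∀ H : ℝ, 1 ≤ H → C * (1 + Real.log H) ≤ k 0 →
    ∀ P : MvPolynomial (Option (Fin (m + 2))) ℤ, P ≠ 0 → P.totalDegree ≤ D →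
    (∀ α, |((P.coeff α : ℤ) : ℝ)| ≤ H) →
    Real.exp (-(C * k (Fin.last (m + 1)))) ≤
      |MvPolynomial.aeval (fun o : Option (Fin (m + 2)) => o.elim Real.pi
        fun i => ∑' n : ℕ, 1 / ((n : ℝ) + 1) ^ (2 * k i + 1)) P| := by
  classical
  obtain ⟨C, hC, h⟩ := lac m D
  refine ⟨C, by linarith, ?_⟩
  intro k hk hlac H hH hHk P hP0 hPD hPH
  have hren0 : rename (pos m) P ≠ 0 := by
    intro h0
    exact hP0 (rename_injective _ (pos_injective m) (by rw [h0, map_zero]))
  have hrenD : (rename (pos m) P).totalDegree ≤ D := (totalDegree_rename_le _ _).trans hPD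
  have hrenH : ∀ α, |(((rename (pos m) P).coeff α : ℤ) : ℝ)| ≤ H := by
    intro α
    by_cases h0 : (rename (pos m) P).coeff α = 0
    · rw [h0, Int.cast_zero, abs_zero]
      linarith
    · obtain ⟨u, hu, _⟩ := coeff_rename_ne_zero _ _ _ h0
      rw [← hu, coeff_rename_mapDomain _ (pos_injective m)]
      exact hPH u
  -- the large indices
  obtain ⟨f, hf⟩ : ∃ f : ℕ → ℕ, f = fun j => if hj : j + 1 < m + 2 then k ⟨j + 1, hj⟩ else 0 :=
    ⟨_, rfl⟩
  have hfj : ∀ j (hj : j + 1 < m + 2), f j = k ⟨j + 1, hj⟩ := by
    intro j hj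
    rw [hf]
    simp only
    rw [dif_pos hj]
  have h01 : k 0 < k 1 := hk (by rw [Fin.lt_def]; simp)
  have hmax : max (k 0) (k 1) = f 0 := by
    rw [hfj 0 (by omega), max_eq_right h01.le]
    rfl
  have hmin : min (k 0) (k 1) = k 0 := min_eq_left h01.le
  obtain ⟨hl1, hl2⟩ := lac_of (m := m) C (max (k 0) (k 1)) f hmax (fun i hi => by
    rw [hfj i (by omega), hfj (i + 1) (by omega)]
    exact hlac ⟨i, hi⟩) m le_rfl
  have h1 := h (k 0) (k 1) h01.ne (fun i : Fin m => f (m - i)) hl1 H hH (by rw [hmin]; exact hHk)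
    (rename (pos m) P) hren0 hrenD hrenH
  rw [hl2, hfj m (by omega), aeval_rename] at h1
  have h2 : zv ![Real.pi, zt (2 * k 0 + 1), zt (2 * k 1 + 1)] m (fun i : Fin m => f (m - i)) ∘
      pos m = fun o : Option (Fin (m + 2)) => o.elim Real.pi
        fun i => ∑' n : ℕ, 1 / ((n : ℝ) + 1) ^ (2 * k i + 1) := by
    funext o
    rw [Function.comp_apply]
    rcases o with _ | i
    · have e : pos m none = Fin.natAdd m (0 : Fin 3) := by
        ext
        simp [pos]
      rw [e, zv_ge]
      rfl
    · by_cases hi : (i : ℕ) ≤ 1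
      · by_cases hi0 : (i : ℕ) = 0
        · have e : pos m (some i) = Fin.natAdd m (1 : Fin 3) := by
            ext
            simp [pos, hi0]
          have ei : i = 0 := by
            ext
            simpa using hi0
          rw [e, zv_ge, ei]
          rfl
        · have hi1 : (i : ℕ) = 1 := by omega
          have e : pos m (some i) = Fin.natAdd m (2 : Fin 3) := by
            ext
            simp [pos, hi1]
          have ei : i = 1 := by
            ext
            simpa using hi1
          rw [e, zv_ge, ei]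
          rfl
      · have hi2 := i.2
        have e : pos m (some i) = Fin.castAdd 3 (⟨m + 1 - i, by omega⟩ : Fin m) := by
          ext
          simp [pos, hi]
        rw [e, zv_lt]
        have e2 : m - (m + 1 - (i : ℕ)) = i - 1 := by omega
        show zt (2 * f (m - (m + 1 - (i : ℕ))) + 1) = _
        rw [e2, hfj ((i : ℕ) - 1) (by omega)]
        have e3 : (⟨(i : ℕ) - 1 + 1, by omega⟩ : Fin (m + 2)) = i := by
          ext
          simp only
          omega
        rw [e3]
        rfl
  rw [h2] at h1
  exact h1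

end Pool.Agent.Results.MP_a89d6d_nt.PairAndLacunaryTail
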