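import Pool.Agent.H298Y.RMain

/-!
# `π` and zeta values whose arguments are near a rational direction

For all `m`, `D` and all positive integers `v_1, …, v_m` there are `δ > 0`, `C > 0` and `n₀` such that
for all `n ≥ n₀` and all distinct integers `s_1, …, s_m` with `|s_i - v_i n| ≤ δ n`, every nonzero
polynomial `P` in `1 + m` variables with integer coefficients of absolute value at most `exp (δ n)`
and of total degree at most `D` satisfies `|P(π, ζ(s_1), …, ζ(s_m))| ≥ exp (-C n)`.
-/

set_option autoImplicit false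

namespace Pool.Agent.Results.MP_a89d6d_nt.RationalDirections

open MvPolynomial

lemma oer_monomial {σ : Type*} (s : Option σ →₀ ℕ) (a : ℤ) :
    optionEquivRight ℤ σ (monomial s a) = monomial s.some (Polynomial.monomial (s none) a) := by
  rw [optionEquivRight_apply, aeval_monomial, Finsupp.prod_option_index _ _ (by simp)
    (by intros; rw [pow_add]), monomial_eq, ← Polynomial.C_mul_X_pow_eq_monomial, C_mul, C_pow]
  simp only [Option.elim_none, Option.elim_some, MvPolynomial.algebraMap_apply,
    Polynomial.algebraMap_eq]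
  ring

lemma oer_coeff {σ : Type*} (n : Option σ →₀ ℕ) (f : MvPolynomial (Option σ) ℤ) :
    ((optionEquivRight ℤ σ f).coeff n.some).coeff (n none) = f.coeff n := by
  induction f using MvPolynomial.induction_on' generalizing n with
  | monomial j r =>
    classical
    rw [oer_monomial, coeff_monomial, coeff_monomial]
    by_cases hj : j = n
    · simp [hj]
    · rw [if_neg hj]
      split_ifs with h
      · rw [Polynomial.coeff_monomial, if_neg]
        intro h1
        apply hj
        rw [← Finsupp.optionElim_some j, ← Finsupp.optionElim_some n, h, h1]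
      · simp
  | add p q hp hq => simp only [map_add, Polynomial.coeff_add, coeff_add, hp, hq]

lemma oer_coeff' {σ : Type*} (α : σ →₀ ℕ) (j : ℕ) (f : MvPolynomial (Option σ) ℤ) :
    ((optionEquivRight ℤ σ f).coeff α).coeff j = f.coeff (α.optionElim j) := by
  have h := oer_coeff (α.optionElim j) f
  rwa [Finsupp.some_optionElim, Finsupp.optionElim_apply_none] at h

lemma oer_eval {σ : Type*} (x : ℝ) (z : σ → ℝ) (f : MvPolynomial (Option σ) ℤ) :
    eval₂ (Polynomial.aeval x : Polynomial ℤ →ₐ[ℤ] ℝ).toRingHom z (optionEquivRight ℤ σ f) =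
      MvPolynomial.aeval (fun o : Option σ => o.elim x z) f := by
  have hx : ∀ q : Polynomial ℤ, (Polynomial.aeval x : Polynomial ℤ →ₐ[ℤ] ℝ).toRingHom q =
      Polynomial.aeval x q := fun _ => rfl
  induction f using MvPolynomial.induction_on with
  | C a =>
    rw [optionEquivRight_C, eval₂_C, hx, Polynomial.aeval_C, aeval_C]
  | add p q hp hq => rw [map_add, eval₂_add, hp, hq, map_add]
  | mul_X p i hp =>
    rw [map_mul, eval₂_mul, hp, map_mul, aeval_X]
    congr 1
    cases i with
    | none =>
      rw [optionEquivRight_X_none, eval₂_C, hx, Polynomial.aeval_X, Option.elim_none]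
    | some i => rw [optionEquivRight_X_some, eval₂_X, Option.elim_some]

theorem result (m D : ℕ) (v : Fin m → ℕ) (hv : ∀ i, 0 < v i) :
    ∃ δ C : ℝ, 0 < δ ∧ 0 < C ∧ ∃ n₀ : ℕ, ∀ n : ℕ, n₀ ≤ n →
    ∀ s : Fin m → ℕ, Function.Injective s → (∀ i, |(s i : ℝ) - v i * n| ≤ δ * n) →
    ∀ P : MvPolynomial (Option (Fin m)) ℤ, P ≠ 0 → P.totalDegree ≤ D →
    (∀ α, |((P.coeff α : ℤ) : ℝ)| ≤ Real.exp (δ * n)) →
    Real.exp (-(C * n)) ≤ |MvPolynomial.aeval (fun o : Option (Fin m) => o.elim Real.pi
      fun i => ∑' j : ℕ, 1 / ((j : ℝ) + 1) ^ (s i)) P| := by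
  obtain ⟨δ, B, hδ, hB, n0, h⟩ := Pool.Agent.H298Y.dirs m D v hv
  refine ⟨δ, Real.log B, hδ, Real.log_pos hB, n0, fun n hn s hs hsd P hP hPD hPH => ?_⟩
  have hQ0 : optionEquivRight ℤ (Fin m) P ≠ 0 := by
    rwa [Ne, EmbeddingLike.map_eq_zero_iff]
  have hsup : ∀ α j, ((optionEquivRight ℤ (Fin m) P).coeff α).coeff j ≠ 0 →
      (α.sum fun _ e => e) + j ≤ D := by
    intro α j hαj
    rw [oer_coeff'] at hαj
    have h1 := (le_totalDegree (mem_support_iff.2 hαj)).trans hPD
    rw [Finsupp.sum_option_index _ _ (by simp) (by simp), Finsupp.some_optionElim,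
      Finsupp.optionElim_apply_none] at h1
    omega
  have hQD : (optionEquivRight ℤ (Fin m) P).totalDegree ≤ D := by
    rw [totalDegree]
    refine Finset.sup_le fun α hα => ?_
    have h1 : (optionEquivRight ℤ (Fin m) P).coeff α ≠ 0 := mem_support_iff.1 hα
    have h2 := hsup α _ (Polynomial.leadingCoeff_ne_zero.2 h1)
    omega
  have hQn : ∀ α, ((optionEquivRight ℤ (Fin m) P).coeff α).natDegree ≤ D := by
    intro α
    rw [Polynomial.natDegree_le_iff_coeff_eq_zero]
    intro j hj
    by_contra hcon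
    have := hsup α j hcon
    omega
  have h1 := h n hn s hs hsd _ hQ0 hQD hQn (fun α j => by rw [oer_coeff']; exact hPH _)
  rw [oer_eval] at h1
  have h2 : Real.exp (-(Real.log B * n)) = (B ^ n)⁻¹ := by
    rw [Real.exp_neg, mul_comm, Real.exp_nat_mul, Real.exp_log (by linarith)]
  rw [h2]
  exact h1.le

end Pool.Agent.Results.MP_a89d6d_nt.RationalDirections
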